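import Pool.Agent.Work.MP_90e647_co.Main

namespace Pool.Agent.Results.MP_90e647_co.AllPowers

open Pool.Agent.Work.MP_90e647_co

/-- For every `n`, the explicit Sowing position `pos n` has value exactly `2^(-n)`. -/
theorem result : ∀ n : ℕ, Equiv (sowing (pos n)) (powHalf n) := pos_value

end Pool.Agent.Results.MP_90e647_co.AllPowers
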